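import Mathlib

namespace Pool.Agent.KS6_69.LL.Aff

def IsAffine {d : ℕ} (g : Equiv.Perm (List (ZMod d))) : Prop :=
  ∃ (A : ℕ → ℕ → ZMod d) (b : ℕ → ZMod d), (∀ i j, j < i → A i j = 0) ∧ (∀ i, IsUnit (A i i)) ∧
    ∀ v : List (ZMod d), (g v).length = v.length ∧
      ∀ j < v.length, (g v).getD j 0 = b j + ∑ i ∈ Finset.range (j + 1), v.getD i 0 * A i j

def states {X : Type} (g : Equiv.Perm (List X)) : Set (Equiv.Perm (List X)) :=
  {h | ∃ v : List X, ∀ w, g (v ++ w) = g v ++ h w}

section
variable (A B : Type) [AddCommGroup A] [AddCommGroup B]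

noncomputable def shift1 (a : A) : MulAut (Multiplicative (A →₀ B)) :=
  AddEquiv.toMultiplicative (Finsupp.domCongr (Equiv.addLeft a))

lemma shift1_add (a b : A) : shift1 A B (a + b) = shift1 A B a * shift1 A B b := by
  ext f x
  simp [shift1, Finsupp.domCongr, ← Equiv.addLeft_add, add_comm, add_assoc]

noncomputable def shift : Multiplicative A →* MulAut (Multiplicative (A →₀ B)) :=
  MonoidHom.mk' (fun a => shift1 A B a.toAdd) fun _ _ => shift1_add A B _ _

def Wr : Type := Multiplicative (A →₀ B) ⋊[shift A B] Multiplicative A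

noncomputable instance : Group (Wr A B) :=
  inferInstanceAs (Group (Multiplicative (A →₀ B) ⋊[shift A B] Multiplicative A))

end

def FinExt (G H : Type) [Group G] [Group H] : Prop :=
  ∃ N : Subgroup G, N.Normal ∧ N.FiniteIndex ∧ Nonempty (N ≃* H)

end Pool.Agent.KS6_69.LL.Aff
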